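import Pool.Agent.GRA.StmtsM
import Pool.Agent.Helper64_FR.FIX

/-!
# Squad GRA, row MF3
-/

open MeasureTheory Matrix Finset
open scoped ComplexConjugate

namespace Pool.Agent.GRA.H84

open Pool.Agent.Helper64_FR Pool.Agent.UTR Pool.Agent.GRA

/-- MF3 -/
theorem mf3 (hMSH : MSHStmt) (hMK6 : MK6Stmt) (hMCA : MCAStmt) : MF3Stmt := by
  intro σ D C hirr hns hD hC f hT hS hf
  have hP : ∀ a b : Fin 3, a ≠ b → σ.P {a, b} f = 0 := by
    intro a b hab
    obtain ⟨l, hl⟩ : ∃ l : Fin 3, Finset.univ.erase l = ({a, b} : Finset (Fin 3)) := by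
      revert a b
      decide
    refine hns l _ ?_ ?_
    · rw [hl]
      intro h hh
      have h1 := (FIX_proof 3 σ {a, b}).1 h hh
      have h2 := congrArg (fun T : σ.Sp →L[ℂ] σ.Sp => T f) h1
      exact h2
    · exact ((hMSH 3 σ D hD).2.2.2.2.2 f hT).1 {a, b} l
  constructor
  · have h1 := (hMK6 3 σ D hD 0 1 (by decide) f hT (hS _)).1
    have h2 := (hMCA 3 σ D C hD hC f hT).2 hS 0 1 (by decide)
    rw [hP 0 1 (by decide), sub_zero] at h1
    have h3 : 0 < ‖f‖ ^ 2 := by
      have := norm_pos_iff.2 hf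
      positivity
    push_cast at h2 ⊢
    by_contra hcon
    push Not at hcon
    nlinarith
  · intro a b hab
    rw [hP a b hab, sub_zero]
    push_cast
    have h3 : 0 ≤ ‖f‖ ^ 2 := by positivity
    linarith

end Pool.Agent.GRA.H84
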